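import Pool.Agent.Helper66.BD.Aut
import Pool.Agent.Helper96.SA.Final

/-!
# The real rank and the group von Neumann algebra: final form (MP_0f6f3f_an)

`exists_p`: if the real rank of `L` is positive then `θ` has an eigenvector for `-1`. `aut_hom`, `aut_iso`: the full rank theorem for groups between the adjoint group and the automorphism group of a real Lie
algebra; for simple Lie algebras the lattices are icc.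
-/

set_option autoImplicit false

open Matrix

namespace Pool.Agent.Helper66.BD

open Pool.Agent.Helper66.RKS Pool.Agent.Helper96.SA Pool.Agent.Helper96.FR
open Pool.Agent.Helper84.GVN (LH)

theorem exists_p {L : Type} [LieRing L] [LieAlgebra ℝ L] {θ : L ≃ₗ⁅ℝ⁆ L} (h : 1 ≤ rankL θ) : ∃ x : L, x ≠ 0 ∧ θ x = -x := by
  by_contra hcon
  push Not at hcon
  have h1 : rankL θ ≤ 0 := by
    unfold rankL
    refine csSup_le' ?_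
    rintro d ⟨a, ha, -, rfl⟩
    have h2 : a = ⊥ := by
      rw [Submodule.eq_bot_iff]
      intro x hx
      by_contra hx0
      exact hcon x hx0 (ha x hx)
    rw [h2, finrank_bot]
  omega

/-- There is a `*`-homomorphism `L(Γ) → L(Λ)` which preserves the trace. -/
def EmbL (Γ Λ : Type) [Group Γ] [Group Λ] : Prop := ∃ f : LH Γ →⋆ₐ[ℂ] LH Λ, ∀ x : LH Γ, (f x).tr = x.tr

variable {L₁ L₂ : Type} [LieRing L₁] [LieAlgebra ℝ L₁] [LieRing L₂] [LieAlgebra ℝ L₂] {N₁ N₂ : ℕ}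
  {θ₁ : L₁ ≃ₗ⁅ℝ⁆ L₁} {θ₂ : L₂ ≃ₗ⁅ℝ⁆ L₂} {b₁ : Module.Basis (Fin N₁) ℝ L₁} {b₂ : Module.Basis (Fin N₂) ℝ L₂}
  {G₁ : Subgroup (GL (Fin N₁) ℝ)} {G₂ : Subgroup (GL (Fin N₂) ℝ)} {Γ₁ : Subgroup G₁} {Γ₂ : Subgroup G₂}

theorem aut_hom (h₁ : CartanBasis θ₁ b₁) (h₂ : CartanBasis θ₂ b₂) (g₁ : IsAdj b₁ G₁) (g₂ : IsAdj b₂ G₂)
    (hΓ₁ : Pool.Agent.Helper96.FR.Lattice Γ₁) (hΓ₂ : DiscreteTopology Γ₂) (h : EmbL Γ₁ Γ₂) :
    rankL θ₁ ≤ rankL θ₂ := by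
  obtain ⟨f, hf⟩ := h
  rw [← realRank_of_aut h₁ g₁, ← realRank_of_aut h₂ g₂]
  exact rank_hom (selfAdj_of_aut h₁ g₁) (selfAdj_of_aut h₂ g₂) hΓ₁ hΓ₂ f hf

theorem icc_adj {L : Type} [LieRing L] [LieAlgebra ℝ L] [LieAlgebra.IsSimple ℝ L] {N : ℕ} {θ : L ≃ₗ⁅ℝ⁆ L}
    {b : Module.Basis (Fin N) ℝ L} {G : Subgroup (GL (Fin N) ℝ)} {Γ : Subgroup G} (h : CartanBasis θ b) (g : IsAdj b G)
    (hr : 1 ≤ rankL θ) (hΓ : Pool.Agent.Helper96.FR.Lattice Γ) : IsICC Γ := by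
  refine icc_lattice h (exists_p hr) g.aut (fun x => mem_lie.2 fun t => ?_) hΓ
  have h1 := g.exp_ad (t • x)
  rwa [map_smul, map_smul] at h1

theorem aut_iso [LieAlgebra.IsSimple ℝ L₁] [LieAlgebra.IsSimple ℝ L₂] (h₁ : CartanBasis θ₁ b₁) (h₂ : CartanBasis θ₂ b₂)
    (g₁ : IsAdj b₁ G₁) (g₂ : IsAdj b₂ G₂) (r₁ : 1 ≤ rankL θ₁) (r₂ : 1 ≤ rankL θ₂)
    (hΓ₁ : Pool.Agent.Helper96.FR.Lattice Γ₁) (hΓ₂ : Pool.Agent.Helper96.FR.Lattice Γ₂) (h : IsoL Γ₁ Γ₂) : rankL θ₁ = rankL θ₂ :=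
  rank_aut h₁ h₂ g₁ g₂ hΓ₁ hΓ₂ (icc_adj h₁ g₁ r₁ hΓ₁) (icc_adj h₂ g₂ r₂ hΓ₂) h

end Pool.Agent.Helper66.BD
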