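import Pool.Agent.Helper66.BD.Fin

/-!
# The identity component of the automorphism group (MP_0f6f3f_an)

`isAdj_component`: the identity component of `Aut(L)` satisfies `IsAdj` (it is the adjoint group of `L`).
-/

set_option autoImplicit false

open Matrix Topology

namespace Pool.Agent.Helper66.BD

open Pool.Agent.Helper96.SA

variable {L : Type} [LieRing L] [LieAlgebra ℝ L] {N : ℕ}

theorem isClosed_autG (b : Module.Basis (Fin N) ℝ L) : IsClosed (autG b : Set (GL (Fin N) ℝ)) := by
  have e : (autG b : Set (GL (Fin N) ℝ)) = ⋂ (u : Fin N → ℝ) (v : Fin N → ℝ),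
      {g : GL (Fin N) ℝ | (g : Mat N) *ᵥ br b u v = br b ((g : Mat N) *ᵥ u) ((g : Mat N) *ᵥ v)} := by
    ext g
    rw [SetLike.mem_coe, mem_autG]
    simp only [Set.mem_iInter, Set.mem_ofPred_eq]
    constructor
    · intro h u v
      have h1 := congrArg b.equivFun (h (b.equivFun.symm u) (b.equivFun.symm v))
      rwa [toLin_coord, br_eq, br_eq, toLin_coord, toLin_coord, LinearEquiv.apply_symm_apply,
        LinearEquiv.apply_symm_apply] at h1
    · intro h x y
      apply b.equivFun.injective
      rw [toLin_coord, br_eq, br_eq, toLin_coord, toLin_coord]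
      exact h _ _
  rw [e]
  refine isClosed_iInter fun u => isClosed_iInter fun v => ?_
  have c : ∀ w : Fin N → ℝ, Continuous fun g : GL (Fin N) ℝ => (g : Mat N) *ᵥ w := fun w =>
    Units.continuous_val.matrix_mulVec continuous_const
  refine isClosed_eq (c _) ?_
  refine continuous_pi fun k => ?_
  unfold br
  refine continuous_finsetSum _ fun i _ => continuous_finsetSum _ fun j _ => ?_
  exact (((continuous_apply i).comp (c u)).mul ((continuous_apply j).comp (c v))).mul continuous_const

theorem isAdj_component (b : Module.Basis (Fin N) ℝ L) :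
    IsAdj b ((Subgroup.connectedComponentOfOne (autG b)).map (autG b).subtype) where
  closed := by
    have h1 : IsClosedEmbedding (fun g : autG b => (g : GL (Fin N) ℝ)) := (isClosed_autG b).isClosedEmbedding_subtypeVal
    have h2 : IsClosed ((Subgroup.connectedComponentOfOne (autG b) : Subgroup (autG b)) : Set (autG b)) :=
      isClosed_connectedComponent
    have h3 := h1.isClosedMap _ h2
    exact h3
  aut := by
    rintro _ ⟨g, _, rfl⟩
    exact g.2
  exp_ad x := by
    have hX : LinearMap.toMatrix b b (LieAlgebra.ad ℝ L x : L →ₗ[ℝ] L) ∈ lie (autG b) := by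
      rw [lie_autG]
      intro y z
      rw [toLin_toMatrix, LieAlgebra.ad_apply, LieAlgebra.ad_apply, LieAlgebra.ad_apply]
      exact leibniz_lie x y z
    set X : Mat N := LinearMap.toMatrix b b (LieAlgebra.ad ℝ L x : L →ₗ[ℝ] L) with hXdef
    let p : ℝ → autG b := fun t => ⟨ex (t • X), mem_lie.1 hX t⟩
    have hp : Continuous p := by
      refine Continuous.subtype_mk ?_ _
      exact continuous_ex.comp (continuous_id.smul continuous_const)
    have h0 : p 0 = 1 := by
      apply Subtype.ext
      change ex ((0 : ℝ) • X) = 1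
      rw [zero_smul, ex_zero]
    have h4 : IsPreconnected (Set.range p) := isPreconnected_range hp
    have h5 : Set.range p ⊆ connectedComponent (1 : autG b) :=
      h4.subset_connectedComponent ⟨0, h0⟩
    refine ⟨p 1, h5 ⟨1, rfl⟩, ?_⟩
    change ex ((1 : ℝ) • X) = ex X
    rw [one_smul]

end Pool.Agent.Helper66.BD
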