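import Pool.Agent.Helper96.FR.Lat3

/-!
# Project BD (MP_0f6f3f_an): recurrence on `G / Γ`

`rec_zero`: a continuous function `χ ≥ 0` on `G / Γ`, `Γ` a lattice, with `χ (a x) ≥ κ χ x`, `κ > 1`, vanishes (Poincaré recurrence and full support of the invariant measure).
-/

set_option autoImplicit false

open Filter Topology MeasureTheory
open scoped Pointwise ENNReal

namespace Pool.Agent.Helper66.BD

open Pool.Agent.Helper96.FR

variable {G : Type*} [Group G] [TopologicalSpace G] [IsTopologicalGroup G]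

theorem rec_zero [SecondCountableTopology G] {Γ : Subgroup G} (hL : Pool.Agent.Helper96.FR.Lattice Γ) {χ : G → ℝ} (hc : Continuous χ)
    (h0 : ∀ g, 0 ≤ χ g) (hΓ : ∀ g, ∀ δ ∈ Γ, χ (g * δ) = χ g) (a : G) {κ : ℝ} (hκ : 1 < κ)
    (ha : ∀ g, κ * χ g ≤ χ (a * g)) (g : G) : χ g = 0 := by
  obtain ⟨-, ν, hν0, hν1, hν⟩ := hL
  let mQ : MeasurableSpace (G ⧸ Γ) := borel (G ⧸ Γ)
  have : BorelSpace (G ⧸ Γ) := ⟨rfl⟩
  have : IsFiniteMeasure ν := ⟨lt_top_iff_ne_top.2 hν1⟩
  -- the function on the quotient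
  let χ' : G ⧸ Γ → ℝ := fun x => Quotient.liftOn' x χ (fun g g' h => by
    have h1 : g⁻¹ * g' ∈ Γ := QuotientGroup.leftRel_apply.1 h
    have h2 := hΓ g _ h1
    rw [mul_inv_cancel_left] at h2
    exact h2.symm)
  have hχ' : ∀ g : G, χ' (g : G ⧸ Γ) = χ g := fun g => rfl
  have hc' : Continuous χ' := by
    exact hc.quotient_liftOn' _
  have hT : ∀ b : G, MeasurePreserving (fun x : G ⧸ Γ => b • x) ν ν := by
    intro b
    have hm : Measurable fun x : G ⧸ Γ => b • x := (continuous_const_smul b).measurable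
    refine ⟨hm, ?_⟩
    ext s hs
    rw [Measure.map_apply hm hs]
    exact hν b s hs
  have hnn : ∀ x, 0 ≤ χ' x := by
    intro x
    induction x using QuotientGroup.induction_on with
    | H z => exact h0 z
  have hstep : ∀ x, κ * χ' x ≤ χ' (a • x) := by
    intro x
    induction x using QuotientGroup.induction_on with
    | H z => exact ha z
  have hiter : ∀ (n : ℕ) x, κ ^ n * χ' x ≤ χ' ((fun x : G ⧸ Γ => a • x)^[n] x) := by
    intro n
    induction n with
    | zero => intro x; simp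
    | succ n ih =>
      intro x
      rw [Function.iterate_succ_apply', pow_succ']
      refine le_trans ?_ (hstep _)
      rw [mul_assoc]
      exact mul_le_mul_of_nonneg_left (ih x) (by linarith)
  -- recurrence
  have hae : ∀ᵐ x ∂ν, χ' x = 0 := by
    have hcons : Conservative (fun x : G ⧸ Γ => a • x) ν := (hT a).conservative
    have h1 : ∀ᵐ x ∂ν, ∀ k : ℕ, x ∈ {x | χ' x ≤ k} →
        ∃ᶠ n in atTop, (fun x : G ⧸ Γ => a • x)^[n] x ∈ {x | χ' x ≤ k} := by
      rw [ae_all_iff]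
      intro k
      exact hcons.ae_mem_imp_frequently_image_mem
        (measurableSet_le hc'.measurable measurable_const).nullMeasurableSet
    filter_upwards [h1] with x hx
    by_contra hne
    have hpos : 0 < χ' x := lt_of_le_of_ne (hnn x) (Ne.symm hne)
    obtain ⟨k, hk⟩ := exists_nat_ge (χ' x)
    have h2 := hx k hk
    have h3 : Tendsto (fun n : ℕ => κ ^ n * χ' x) atTop atTop :=
      (tendsto_pow_atTop_atTop_of_one_lt hκ).atTop_mul_const hpos
    have h4 : ∀ᶠ n : ℕ in atTop, (k : ℝ) < κ ^ n * χ' x := h3.eventually (eventually_gt_atTop _)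
    obtain ⟨n, hn1, hn2⟩ := (h2.and_eventually h4).exists
    exact absurd (lt_of_lt_of_le hn2 (hiter n x)) (not_lt.2 hn1)
  -- full support
  have hopen : IsOpen {x | χ' x ≠ 0} := isOpen_ne_fun hc' continuous_const
  by_contra hg
  have hU : IsOpen {g : G | χ g ≠ 0} := isOpen_ne_fun hc continuous_const
  obtain ⟨T, hTc, hTu⟩ := TopologicalSpace.isOpen_iUnion_countable (fun b : G => {g' : G | χ (b⁻¹ * g') ≠ 0})
    (fun b => isOpen_ne_fun (hc.comp (continuous_const.mul continuous_id)) continuous_const)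
  have hcov : ∀ g' : G, ∃ b ∈ T, χ (b⁻¹ * g') ≠ 0 := by
    intro g'
    have h1 : g' ∈ ⋃ b : G, {g' : G | χ (b⁻¹ * g') ≠ 0} := by
      refine Set.mem_iUnion.2 ⟨g' * g⁻¹, ?_⟩
      change χ ((g' * g⁻¹)⁻¹ * g') ≠ 0
      rw [mul_inv_rev, inv_inv, inv_mul_cancel_right]
      exact hg
    rw [← hTu] at h1
    obtain ⟨b, hb, h2⟩ := Set.mem_iUnion₂.1 h1
    exact ⟨b, hb, h2⟩
  apply hν0
  have hsub : (Set.univ : Set (G ⧸ Γ)) ⊆ ⋃ b ∈ T, (fun x : G ⧸ Γ => b⁻¹ • x) ⁻¹' {x | χ' x ≠ 0} := by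
    intro x _
    induction x using QuotientGroup.induction_on with
    | H z =>
      obtain ⟨b, hb, h2⟩ := hcov z
      exact Set.mem_iUnion₂.2 ⟨b, hb, h2⟩
  refine le_antisymm ((measure_mono hsub).trans ?_) zero_le
  have hz : ∀ b ∈ T, ν ((fun x : G ⧸ Γ => b⁻¹ • x) ⁻¹' {x | χ' x ≠ 0}) = 0 := by
    intro b _
    rw [(hT b⁻¹).measure_preimage hopen.measurableSet.nullMeasurableSet]
    exact hae
  exact le_of_eq ((measure_biUnion_null_iff hTc).2 hz)

end Pool.Agent.Helper66.BD
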