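import Pool.Agent.Helper66.BD.Comm
import Pool.Agent.Helper96.SA.Adj2
import Pool.Agent.Helper66.RK.StmtDef

/-!
# Project BD (MP_0f6f3f_an): lattices of adjoint groups are icc

`L` a simple real Lie algebra with a Cartan involution `θ` which is not the identity, `G` a group of automorphisms of `L` which contains `exp (ad x)` for all `x`. An element of `G` which
commutes with all symmetric matrices of `lie G` is `1`: it fixes `p = {x | θ x = - x}`, hence the ideal `p + [p, p]`. So all lattices of `G` are icc.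
-/

set_option autoImplicit false

open Filter Topology MeasureTheory Matrix

namespace Pool.Agent.Helper66.BD

open Pool.Agent.Helper96.FR Pool.Agent.Helper96.SA

variable {L : Type} [LieRing L] [LieAlgebra ℝ L] {N : ℕ}

theorem coord_eq {θ : L ≃ₗ⁅ℝ⁆ L} {b : Module.Basis (Fin N) ℝ L} (h : CartanBasis θ b) (x : L) (i : Fin N) :
    b.equivFun x i = -killingForm ℝ L x (θ (b i)) := by
  classical
  rw [form_self h]
  have h1 : ∀ k, b.equivFun (b i) k = if i = k then 1 else 0 := fun k => b.equivFun_self i k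
  simp only [h1]
  simp

theorem kill_symm {θ : L ≃ₗ⁅ℝ⁆ L} (hθ : ∀ x, θ (θ x) = x) {x : L} (hx : θ x = -x) (y z : L) :
    killingForm ℝ L ⁅x, y⁆ (θ z) = killingForm ℝ L ⁅x, z⁆ (θ y) := by
  have h1 : killingForm ℝ L ⁅x, y⁆ (θ z) = -killingForm ℝ L y ⁅x, θ z⁆ :=
    LieModule.traceForm_apply_lie_apply' ℝ L L x y (θ z)
  have h2 : ⁅x, θ z⁆ = -θ ⁅x, z⁆ := by
    rw [LieEquiv.map_lie, hx, neg_lie, neg_neg]
  have h3 : killingForm ℝ L y (θ ⁅x, z⁆) = killingForm ℝ L (θ y) ⁅x, z⁆ := by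
    have h4 := LieAlgebra.killingForm_of_equiv_apply θ (θ y) ⁅x, z⁆
    rw [hθ] at h4
    exact h4
  rw [h1, h2, map_neg, neg_neg, h3]
  exact LieModule.traceForm_comm ℝ L L _ _

/-- `ad x` is symmetric for `θ x = - x` -/
theorem ad_symm {θ : L ≃ₗ⁅ℝ⁆ L} {b : Module.Basis (Fin N) ℝ L} (h : CartanBasis θ b) {x : L} (hx : θ x = -x) :
    (LinearMap.toMatrix b b (LieAlgebra.ad ℝ L x : L →ₗ[ℝ] L))ᵀ = LinearMap.toMatrix b b (LieAlgebra.ad ℝ L x : L →ₗ[ℝ] L) := by
  ext i j
  rw [Matrix.transpose_apply, LinearMap.toMatrix_apply, LinearMap.toMatrix_apply, LieAlgebra.ad_apply, LieAlgebra.ad_apply]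
  change b.equivFun ⁅x, b i⁆ j = b.equivFun ⁅x, b j⁆ i
  rw [coord_eq h, coord_eq h, kill_symm h.invol hx]

/-- the ideal `p + [p, p]` -/
private theorem ideal_top [LieAlgebra.IsSimple ℝ L] {θ : L ≃ₗ⁅ℝ⁆ L} (hθ : ∀ x, θ (θ x) = x)
    (hp : ∃ x : L, x ≠ 0 ∧ θ x = -x) (M : Submodule ℝ L) (h1 : ∀ x, θ x = -x → x ∈ M)
    (h2 : ∀ x y, θ x = -x → θ y = -y → ⁅x, y⁆ ∈ M) : M = ⊤ := by
  let P : Submodule ℝ L :=
    { carrier := {x | θ x = -x}
      add_mem' := fun {x y} hx hy => by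
        change θ (x + y) = -(x + y)
        have hx' : θ x = -x := hx
        have hy' : θ y = -y := hy
        rw [map_add, hx', hy', neg_add]
      zero_mem' := by
        change θ 0 = -0
        rw [map_zero, neg_zero]
      smul_mem' := fun c x hx => by
        change θ (c • x) = -(c • x)
        have hx' : θ x = -x := hx
        rw [map_smul, hx', smul_neg] }
  let Q : Submodule ℝ L := Submodule.span ℝ {z | ∃ x ∈ P, ∃ y ∈ P, z = ⁅x, y⁆}
  have hc1 : ∀ w : L, ∀ m ∈ P, ⁅w, m⁆ ∈ P ⊔ Q := by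
    intro w m hm
    have hm' : θ m = -m := hm
    set u : L := (1 / 2 : ℝ) • (w + θ w) with hu
    set v : L := (1 / 2 : ℝ) • (w - θ w) with hv
    have hw : w = u + v := by
      rw [hu, hv, ← smul_add, add_add_sub_cancel, ← two_smul ℝ w, smul_smul]
      norm_num
    have hu' : θ u = u := by
      rw [hu, map_smul, map_add, hθ, add_comm]
    have hv' : v ∈ P := by
      change θ v = -v
      rw [hv, map_smul, map_sub, hθ, ← smul_neg, neg_sub]
    rw [hw, add_lie]
    refine Submodule.add_mem_sup ?_ (Submodule.subset_span ⟨v, hv', m, hm, rfl⟩)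
    change θ ⁅u, m⁆ = -⁅u, m⁆
    rw [LieEquiv.map_lie, hu', hm', lie_neg]
  have hc2 : ∀ w : L, ∀ m ∈ Q, ⁅w, m⁆ ∈ P ⊔ Q := by
    intro w m hm
    induction hm using Submodule.span_induction with
    | mem z hz =>
      obtain ⟨x, hx, y, hy, rfl⟩ := hz
      rw [leibniz_lie w x y, ← lie_skew x ⁅w, y⁆]
      exact Submodule.add_mem _ (hc1 _ _ hy) (Submodule.neg_mem _ (hc1 _ _ hx))
    | zero => rw [lie_zero]; exact Submodule.zero_mem _
    | add x y _ _ hx hy => rw [lie_add]; exact Submodule.add_mem _ hx hy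
    | smul c x _ hx => rw [lie_smul]; exact Submodule.smul_mem _ _ hx
  let I : LieIdeal ℝ L :=
    { (P ⊔ Q) with
      lie_mem := fun {w m} hm => by
        obtain ⟨p, hp, q, hq, rfl⟩ := Submodule.mem_sup.1 hm
        rw [lie_add]
        exact Submodule.add_mem _ (hc1 w p hp) (hc2 w q hq) }
  have hmem : ∀ x : L, x ∈ I ↔ x ∈ P ⊔ Q := fun x => Iff.rfl
  have hI : I = ⊤ := by
    rcases LieAlgebra.IsSimple.eq_bot_or_eq_top (R := ℝ) I with h | h
    · exfalso
      obtain ⟨x, hx0, hx⟩ := hp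
      have h3 : x ∈ I := (hmem x).2 (Submodule.mem_sup_left hx)
      rw [h, LieSubmodule.mem_bot] at h3
      exact hx0 h3
    · exact h
  have hle : P ⊔ Q ≤ M := by
    refine sup_le (fun x hx => h1 x hx) (Submodule.span_le.2 ?_)
    rintro z ⟨x, hx, y, hy, rfl⟩
    exact h2 x y hx hy
  rw [eq_top_iff]
  intro x _
  refine hle ((hmem x).1 ?_)
  rw [hI]
  trivial

/-- Automorphisms commuting with all symmetric elements of the Lie algebra are trivial. -/
theorem eq_one_of_comm [LieAlgebra.IsSimple ℝ L] {θ : L ≃ₗ⁅ℝ⁆ L} {b : Module.Basis (Fin N) ℝ L} (h : CartanBasis θ b)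
    (hp : ∃ x : L, x ≠ 0 ∧ θ x = -x) {z : GL (Fin N) ℝ} (hz : z ∈ autG b)
    (hc : ∀ x : L, θ x = -x → (z : Mat N) * LinearMap.toMatrix b b (LieAlgebra.ad ℝ L x : L →ₗ[ℝ] L) =
      LinearMap.toMatrix b b (LieAlgebra.ad ℝ L x : L →ₗ[ℝ] L) * (z : Mat N)) : z = 1 := by
  set φ := toLin b b (z : Mat N) with hφ
  have hsurj : Function.Surjective φ := by
    intro y
    refine ⟨toLin b b ((z⁻¹ : GL (Fin N) ℝ) : Mat N) y, ?_⟩
    rw [hφ, ← LinearMap.comp_apply, ← toLin_mul b b b, Units.mul_inv, toLin_one]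
    rfl
  have hfix : ∀ x, θ x = -x → φ x = x := by
    intro x hx
    have h1 : ∀ y, φ ⁅x, y⁆ = ⁅x, φ y⁆ := by
      intro y
      have h2 := congrArg (fun T : Mat N => toLin b b T y) (hc x hx)
      simp only [toLin_mul b b b, toLin_toMatrix, LinearMap.comp_apply] at h2
      exact h2
    have h3 : ∀ y, ⁅φ x - x, φ y⁆ = 0 := by
      intro y
      rw [sub_lie, ← mem_autG.1 hz x y, ← h1, sub_self]
    have h4 : φ x - x = 0 := by
      refine eq_zero_of_bracket h fun w => ?_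
      obtain ⟨y, rfl⟩ := hsurj w
      exact h3 y
    exact sub_eq_zero.1 h4
  let M : Submodule ℝ L := LinearMap.eqLocus φ LinearMap.id
  have hM : M = ⊤ := by
    refine ideal_top h.invol hp M (fun x hx => ?_) (fun x y hx hy => ?_)
    · exact hfix x hx
    · change φ ⁅x, y⁆ = ⁅x, y⁆
      have h5 := mem_autG.1 hz x y
      rw [← hφ] at h5
      rw [h5, hfix x hx, hfix y hy]
  have hid : φ = LinearMap.id := by
    refine LinearMap.ext fun x => ?_
    have hx : x ∈ M := by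
      rw [hM]
      trivial
    exact hx
  apply Units.ext
  rw [Units.val_one]
  have h6 : toLin b b (z : Mat N) = toLin b b 1 := by rw [toLin_one]; exact hid
  exact (toLin b b).injective h6

/-- The lattices of adjoint groups are icc. -/
theorem icc_lattice [LieAlgebra.IsSimple ℝ L] {θ : L ≃ₗ⁅ℝ⁆ L} {b : Module.Basis (Fin N) ℝ L} (h : CartanBasis θ b)
    (hp : ∃ x : L, x ≠ 0 ∧ θ x = -x) {G : Subgroup (GL (Fin N) ℝ)} (hle : G ≤ autG b)
    (hlie : ∀ x : L, LinearMap.toMatrix b b (LieAlgebra.ad ℝ L x : L →ₗ[ℝ] L) ∈ lie G) {Γ : Subgroup G}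
    (hL : Pool.Agent.Helper96.FR.Lattice Γ) : Pool.Agent.Helper66.RKS.IsICC Γ := by
  intro γ hγ
  by_contra hcon
  have hfin := Set.not_infinite.1 hcon
  apply hγ
  have h1 : ((γ : G) : GL (Fin N) ℝ) = 1 :=
    eq_one_of_comm h hp (hle (γ : G).2) fun x hx => comm_of_finite hL γ hfin (hlie x) (ad_symm h hx)
  exact Subtype.ext (Subtype.ext h1)

end Pool.Agent.Helper66.BD
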