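import Pool.Agent.Helper66.BD.Rec
import Pool.Agent.Helper96.SA.Exp

/-!
# Project BD (MP_0f6f3f_an): elements of a lattice with finite conjugacy class

`comm_of_finite`: an element of a lattice `Γ` of `G < GL(N, ℝ)` whose conjugacy class in `Γ` is finite commutes with all symmetric matrices in `lie G`.
-/

set_option autoImplicit false

open Filter Topology MeasureTheory Matrix

namespace Pool.Agent.Helper66.BD

open Pool.Agent.Helper96.FR Pool.Agent.Helper96.SA

variable {N : ℕ}

/-- the spectral theorem -/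
theorem exists_spec {H : Mat N} (hs : Hᵀ = H) : ∃ (O : Mat N) (d : Fin N → ℝ), Oᵀ * O = 1 ∧ O * Oᵀ = 1 ∧
    H = O * diagonal d * Oᵀ := by
  have hH : H.IsHermitian := by
    unfold Matrix.IsHermitian
    rw [Matrix.conjTranspose_eq_transpose_of_trivial, hs]
  refine ⟨hH.eigenvectorUnitary, hH.eigenvalues, ?_, ?_, ?_⟩
  · have h := Unitary.coe_star_mul_self hH.eigenvectorUnitary
    rwa [Matrix.star_eq_conjTranspose, Matrix.conjTranspose_eq_transpose_of_trivial] at h
  · have h := Unitary.coe_mul_star_self hH.eigenvectorUnitary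
    rwa [Unitary.coe_star, Matrix.star_eq_conjTranspose, Matrix.conjTranspose_eq_transpose_of_trivial] at h
  · have h := hH.spectral_theorem
    rw [Unitary.conjStarAlgAut_apply, Matrix.star_eq_conjTranspose,
      Matrix.conjTranspose_eq_transpose_of_trivial] at h
    exact h

instance instSecondGL : SecondCountableTopology (GL (Fin N) ℝ) := by
  have : SecondCountableTopology (Mat N) := inferInstanceAs (SecondCountableTopology (Fin N → Fin N → ℝ))
  exact isEmbedding_val.secondCountableTopology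

variable {G : Subgroup (GL (Fin N) ℝ)}

instance instSecondG : SecondCountableTopology G :=
  TopologicalSpace.Subtype.secondCountableTopology (G : Set (GL (Fin N) ℝ))

/-- the weight part of the conjugates -/
private noncomputable def chi (C : Finset G) (O : Mat N) (d : Fin N → ℝ) (l : ℝ) (g : G) : ℝ :=
  ∑ c ∈ C, ∑ i, ∑ j, if d i - d j = l then ((Oᵀ * (((g * c * g⁻¹ : G) : GL (Fin N) ℝ) : Mat N) * O) i j) ^ 2 else 0

private theorem chi_cont (C : Finset G) (O : Mat N) (d : Fin N → ℝ) (l : ℝ) : Continuous (chi C O d l) := by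
  unfold chi
  refine continuous_finsetSum _ fun c _ => continuous_finsetSum _ fun i _ => continuous_finsetSum _ fun j _ => ?_
  by_cases h : d i - d j = l
  · simp only [if_pos h]
    have h1 : Continuous fun g : G => (((g * c * g⁻¹ : G) : GL (Fin N) ℝ) : Mat N) :=
      Units.continuous_val.comp (continuous_subtype_val.comp (by fun_prop))
    have h2 : Continuous fun g : G => (Oᵀ * (((g * c * g⁻¹ : G) : GL (Fin N) ℝ) : Mat N) * O) :=
      (continuous_const.matrix_mul h1).matrix_mul continuous_const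
    exact (h2.matrix_elem i j).pow 2
  · simp only [if_neg h]
    exact continuous_const

private theorem chi_nonneg (C : Finset G) (O : Mat N) (d : Fin N → ℝ) (l : ℝ) (g : G) : 0 ≤ chi C O d l g := by
  unfold chi
  refine Finset.sum_nonneg fun c _ => Finset.sum_nonneg fun i _ => Finset.sum_nonneg fun j _ => ?_
  split_ifs
  · exact sq_nonneg _
  · exact le_refl _

private theorem chi_left (C : Finset G) {O : Mat N} (h1 : Oᵀ * O = 1) (h2 : O * Oᵀ = 1) (d : Fin N → ℝ) (l : ℝ)
    (a : G) (ha : (a : GL (Fin N) ℝ) = ex (O * diagonal d * Oᵀ)) (g : G) :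
    chi C O d l (a * g) = Real.exp (2 * l) * chi C O d l g := by
  unfold chi
  rw [Finset.mul_sum]
  refine Finset.sum_congr rfl fun c _ => ?_
  rw [Finset.mul_sum]
  refine Finset.sum_congr rfl fun i _ => ?_
  rw [Finset.mul_sum]
  refine Finset.sum_congr rfl fun j _ => ?_
  by_cases h : d i - d j = l
  · rw [if_pos h, if_pos h]
    have e1 : ((a : GL (Fin N) ℝ) : Mat N) = O * diagonal (fun i => Real.exp (d i)) * Oᵀ := by
      rw [ha, ex_coe, exp_diag O h1 h2]
    have e2 : (((a : GL (Fin N) ℝ)⁻¹ : GL (Fin N) ℝ) : Mat N) = O * diagonal (fun i => Real.exp (-d i)) * Oᵀ := by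
      have e3 : -(O * diagonal d * Oᵀ) = O * diagonal (fun i => -d i) * Oᵀ := by
        have e4 : diagonal (fun i => -d i) = -diagonal d := by
          rw [Matrix.diagonal_neg]
        rw [e4, Matrix.mul_neg, Matrix.neg_mul]
      rw [ha, ← ex_neg, ex_coe, e3, exp_diag O h1 h2]
    have e5 : (((a * g * c * (a * g)⁻¹ : G) : GL (Fin N) ℝ) : Mat N) =
        ((a : GL (Fin N) ℝ) : Mat N) * (((g * c * g⁻¹ : G) : GL (Fin N) ℝ) : Mat N) *
          (((a : GL (Fin N) ℝ)⁻¹ : GL (Fin N) ℝ) : Mat N) := by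
      have e6 : a * g * c * (a * g)⁻¹ = a * (g * c * g⁻¹) * a⁻¹ := by group
      rw [e6]
      rfl
    rw [e5, e1, e2]
    set M := (((g * c * g⁻¹ : G) : GL (Fin N) ℝ) : Mat N) with hM
    have e7 : Oᵀ * (O * diagonal (fun i => Real.exp (d i)) * Oᵀ * M * (O * diagonal (fun i => Real.exp (-d i)) * Oᵀ)) * O =
        diagonal (fun i => Real.exp (d i)) * (Oᵀ * M * O) * diagonal (fun i => Real.exp (-d i)) := by
      calc Oᵀ * (O * diagonal (fun i => Real.exp (d i)) * Oᵀ * M * (O * diagonal (fun i => Real.exp (-d i)) * Oᵀ)) * O =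
          (Oᵀ * O) * diagonal (fun i => Real.exp (d i)) * (Oᵀ * M * O) * diagonal (fun i => Real.exp (-d i)) * (Oᵀ * O) := by
            simp only [Matrix.mul_assoc]
        _ = _ := by rw [h1, Matrix.one_mul, Matrix.mul_one]
    rw [e7, Matrix.mul_diagonal, Matrix.diagonal_mul, mul_pow, mul_pow, ← h]
    have e8 : Real.exp (2 * (d i - d j)) = Real.exp (d i) ^ 2 * Real.exp (-d j) ^ 2 := by
      rw [← mul_pow, ← Real.exp_add, ← Real.exp_nat_mul]
      rfl
    rw [e8]
    ring
  · rw [if_neg h, if_neg h, mul_zero]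

private theorem entry_zero {Γ : Subgroup G} (hL : Pool.Agent.Helper96.FR.Lattice Γ) (γ : Γ)
    (hfin : (Set.range fun g : Γ => g * γ * g⁻¹).Finite) {O : Mat N} (h1 : Oᵀ * O = 1) (h2 : O * Oᵀ = 1)
    (d : Fin N → ℝ) (hH : O * diagonal d * Oᵀ ∈ lie G) {i j : Fin N} (hij : d j < d i) :
    (Oᵀ * (((γ : G) : GL (Fin N) ℝ) : Mat N) * O) i j = 0 := by
  classical
  let C : Finset G := hfin.toFinset.image Subtype.val
  have hC : ∀ c : G, c ∈ C ↔ ∃ g : Γ, (g : G) * γ * (g : G)⁻¹ = c := by
    intro c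
    constructor
    · intro hc
      obtain ⟨c', hc', rfl⟩ := Finset.mem_image.1 hc
      obtain ⟨g, hg⟩ := hfin.mem_toFinset.1 hc'
      refine ⟨g, ?_⟩
      rw [← hg]
      rfl
    · rintro ⟨g, rfl⟩
      exact Finset.mem_image.2 ⟨g * γ * g⁻¹, hfin.mem_toFinset.2 ⟨g, rfl⟩, rfl⟩
  let a : G := ⟨ex (O * diagonal d * Oᵀ), by
    have h := mem_lie.1 hH 1
    rwa [one_smul] at h⟩
  have h3 := rec_zero hL (chi_cont C O d (d i - d j)) (chi_nonneg C O d (d i - d j)) (fun g δ hδ => ?_) a
    (κ := Real.exp (2 * (d i - d j))) (Real.one_lt_exp_iff.2 (by linarith))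
    (fun g => (chi_left C h1 h2 d _ a rfl g).ge) 1
  · unfold chi at h3
    have h4 := (Finset.sum_eq_zero_iff_of_nonneg (fun c _ => Finset.sum_nonneg fun i _ =>
      Finset.sum_nonneg fun j _ => by
        split_ifs
        · exact sq_nonneg _
        · exact le_refl _)).1 h3 (γ : G) ((hC _).2 ⟨1, by simp⟩)
    have h5 := (Finset.sum_eq_zero_iff_of_nonneg (fun i _ =>
      Finset.sum_nonneg fun j _ => by
        split_ifs
        · exact sq_nonneg _
        · exact le_refl _)).1 h4 i (Finset.mem_univ i)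
    have h6 := (Finset.sum_eq_zero_iff_of_nonneg (fun j _ => by
        split_ifs
        · exact sq_nonneg _
        · exact le_refl _)).1 h5 j (Finset.mem_univ j)
    rw [if_pos rfl, one_mul, inv_one, mul_one] at h6
    exact (pow_eq_zero_iff two_ne_zero).1 h6
  · unfold chi
    have hδ' : ∀ c ∈ C, δ * c * δ⁻¹ ∈ C := by
      intro c hc
      obtain ⟨g, rfl⟩ := (hC c).1 hc
      refine (hC _).2 ⟨⟨δ, hδ⟩ * g, ?_⟩
      change δ * (g : G) * γ * (δ * (g : G))⁻¹ = δ * ((g : G) * γ * (g : G)⁻¹) * δ⁻¹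
      group
    have hδ'' : ∀ c ∈ C, δ⁻¹ * c * δ ∈ C := by
      intro c hc
      obtain ⟨g, rfl⟩ := (hC c).1 hc
      refine (hC _).2 ⟨⟨δ, hδ⟩⁻¹ * g, ?_⟩
      change δ⁻¹ * (g : G) * γ * (δ⁻¹ * (g : G))⁻¹ = δ⁻¹ * ((g : G) * γ * (g : G)⁻¹) * δ
      group
    refine Finset.sum_nbij' (fun c => δ * c * δ⁻¹) (fun c => δ⁻¹ * c * δ) hδ' hδ'' ?_ ?_ ?_
    · intro c _
      group
    · intro c _
      group
    · intro c _
      have e : g * δ * c * (g * δ)⁻¹ = g * (δ * c * δ⁻¹) * g⁻¹ := by group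
      simp only [e]

/-- An element of a lattice with finite conjugacy class commutes with all symmetric matrices of the Lie algebra. -/
theorem comm_of_finite {Γ : Subgroup G} (hL : Pool.Agent.Helper96.FR.Lattice Γ) (γ : Γ)
    (hfin : (Set.range fun g : Γ => g * γ * g⁻¹).Finite) {H : Mat N} (hH : H ∈ lie G) (hs : Hᵀ = H) :
    (((γ : G) : GL (Fin N) ℝ) : Mat N) * H = H * (((γ : G) : GL (Fin N) ℝ) : Mat N) := by
  obtain ⟨O, d, h1, h2, rfl⟩ := exists_spec hs
  set M := (((γ : G) : GL (Fin N) ℝ) : Mat N) with hM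
  have hneg : O * diagonal (fun i => -d i) * Oᵀ ∈ lie G := by
    have e3 : O * diagonal (fun i => -d i) * Oᵀ = (-1 : ℝ) • (O * diagonal d * Oᵀ) := by
      have e4 : diagonal (fun i => -d i) = (-1 : ℝ) • diagonal d := by
        rw [← Matrix.diagonal_smul]
        congr 1
        funext i
        simp
      rw [e4, Matrix.mul_smul, Matrix.smul_mul]
    rw [e3]
    refine mem_lie.2 fun t => ?_
    rw [smul_smul]
    exact mem_lie.1 hH _
  have key : (Oᵀ * M * O) * diagonal d = diagonal d * (Oᵀ * M * O) := by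
    ext i j
    rw [Matrix.mul_diagonal, Matrix.diagonal_mul]
    rcases lt_trichotomy (d i) (d j) with h | h | h
    · rw [entry_zero hL γ hfin h1 h2 (fun i => -d i) hneg (neg_lt_neg h), zero_mul, mul_zero]
    · rw [h, mul_comm]
    · rw [entry_zero hL γ hfin h1 h2 d hH h, zero_mul, mul_zero]
  calc M * (O * diagonal d * Oᵀ) = (O * Oᵀ) * M * (O * diagonal d * Oᵀ) := by rw [h2, Matrix.one_mul]
    _ = O * ((Oᵀ * M * O) * diagonal d) * Oᵀ := by simp only [Matrix.mul_assoc]
    _ = O * (diagonal d * (Oᵀ * M * O)) * Oᵀ := by rw [key]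
    _ = O * diagonal d * Oᵀ * M * (O * Oᵀ) := by simp only [Matrix.mul_assoc]
    _ = O * diagonal d * Oᵀ * M := by rw [h2, Matrix.mul_one]

end Pool.Agent.Helper66.BD
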